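import Pool.Agent.Y520.AF.Stm

/-!
# The order of the surface: statement
-/

set_option autoImplicit false

noncomputable section

namespace Pool.Agent.Y520.AF

/-- the restriction of polynomials to a set of points -/
def restr (X : Set (Fin 4 → ℝ)) : MvPolynomial (Fin 4) ℝ →ₗ[ℝ] (X → ℝ) where
  toFun P y := MvPolynomial.eval y.1 P
  map_add' P Q := by funext y; exact map_add _ P Q
  map_smul' c P := by funext y; simp [MvPolynomial.smul_eval]

/-- the space of the functions on `X` which are restrictions of polynomials of degree at most `m` -/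
def Vm (X : Set (Fin 4 → ℝ)) (m : ℕ) : Submodule ℝ (X → ℝ) :=
  (MvPolynomial.restrictTotalDegree (Fin 4) ℝ m).map (restr X)

/-- **DEG**: a bound for the Hilbert function of the surface -/
def S_DEG : Prop := ∀ s₀ : ℝ, 0 < s₀ → ∀ m : ℕ,
  Module.finrank ℝ (Vm (Surf s₀) m) ≤ (3 * m + 1) * (42 * m + 1)

end Pool.Agent.Y520.AF
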