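import Pool.Agent.Y520.AF.Stm

/-!
# The explicit curve: the structure equations
-/

set_option autoImplicit false

noncomputable section

namespace Pool.Agent.Y520.AF

open Real Filter Topology
open scoped ContDiff

/-- the components of the second derivative of the curve -/
def q0 (x : ℝ) : ℝ := 30 * sin x ^ 4 - 36 * sin x ^ 6
def q1 (x : ℝ) : ℝ := -4 * sin x * cos x
def q2 (x : ℝ) : ℝ := -16 * sin x * cos x * (1 - 2 * sin x ^ 2)

/-- the components of the derivative of `C` -/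
def e0 (x : ℝ) : ℝ := 4 * sin x * (3 - 8 * sin x ^ 2 + 8 * sin x ^ 4) +
  64 * (1 - sin x ^ 2) * sin x * (1 - 2 * sin x ^ 2)
def e1 (x : ℝ) : ℝ := cos x *
  (90 * sin x ^ 2 - 900 * sin x ^ 4 + 1680 * sin x ^ 6 - 864 * sin x ^ 8)
def e2 (x : ℝ) : ℝ := cos x * (-90 * sin x ^ 2 + 360 * sin x ^ 4 - 336 * sin x ^ 6)

theorem hr0 (x : ℝ) : HasDerivAt r0 (p0 x) x := by
  have h := (hasDerivAt_sin x).pow 6
  refine h.congr_deriv ?_
  unfold p0; push_cast; ring

theorem hr1 (x : ℝ) : HasDerivAt r1 (p1 x) x := by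
  have h := (hasDerivAt_sin x).mul (hasDerivAt_cos x)
  refine h.congr_deriv ?_
  unfold p1
  have := sin_sq_add_cos_sq x
  linear_combination this

theorem hr2 (x : ℝ) : HasDerivAt r2 (p2 x) x := by
  have h := ((hasDerivAt_sin x).mul (hasDerivAt_cos x)).mul
    ((((hasDerivAt_sin x).pow 2).const_mul 2).const_sub 1)
  refine h.congr_deriv ?_
  unfold p2
  have := sin_sq_add_cos_sq x
  simp only [Pi.mul_apply, Pi.pow_apply]
  push_cast
  linear_combination (1 - 6 * sin x ^ 2) * this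

theorem hp0 (x : ℝ) : HasDerivAt p0 (q0 x) x := by
  have h := ((((hasDerivAt_sin x).pow 5).const_mul 6).mul (hasDerivAt_cos x))
  refine h.congr_deriv ?_
  unfold q0
  have := sin_sq_add_cos_sq x
  simp only [Pi.pow_apply]
  push_cast
  linear_combination (30 * sin x ^ 4) * this

theorem hp1 (x : ℝ) : HasDerivAt p1 (q1 x) x := by
  have h := ((((hasDerivAt_sin x).pow 2).const_mul 2).const_sub 1)
  refine h.congr_deriv ?_
  unfold q1
  push_cast
  ring

theorem hp2 (x : ℝ) : HasDerivAt p2 (q2 x) x := by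
  have h := ((((hasDerivAt_sin x).pow 2).const_mul 8).const_sub 1).add
    (((hasDerivAt_sin x).pow 4).const_mul 8)
  refine h.congr_deriv ?_
  unfold q2
  push_cast
  ring

theorem hc0 (x : ℝ) : HasDerivAt c0 (e0 x) x := by
  have h := ((hasDerivAt_cos x).const_mul (-4)).mul
    (((((hasDerivAt_sin x).pow 2).const_mul 8).const_sub 3).add
    (((hasDerivAt_sin x).pow 4).const_mul 8))
  refine h.congr_deriv ?_
  unfold e0
  have := sin_sq_add_cos_sq x
  simp only [Pi.add_apply, Pi.pow_apply]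
  push_cast
  linear_combination (64 * sin x * (1 - 2 * sin x ^ 2)) * this

theorem hc1 (x : ℝ) : HasDerivAt c1 (e1 x) x := by
  have h := (((hasDerivAt_sin x).pow 3).const_mul 6).mul
    ((((((hasDerivAt_sin x).pow 2).const_mul 30).const_sub 5).add
    (((hasDerivAt_sin x).pow 4).const_mul 40)).sub (((hasDerivAt_sin x).pow 6).const_mul 16))
  refine h.congr_deriv ?_
  unfold e1
  simp only [Pi.add_apply, Pi.sub_apply, Pi.pow_apply]
  push_cast
  ring

theorem hc2 (x : ℝ) : HasDerivAt c2 (e2 x) x := by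
  have h := (((hasDerivAt_sin x).pow 3).const_mul (-6)).mul
    (((((hasDerivAt_sin x).pow 2).const_mul 12).const_sub 5).add
    (((hasDerivAt_sin x).pow 4).const_mul 8))
  refine h.congr_deriv ?_
  unfold e2
  simp only [Pi.add_apply, Pi.pow_apply]
  push_cast
  ring

section
variable (x : ℝ)

theorem i0 : p1 x * q2 x - p2 x * q1 x = sin x * c0 x := by
  unfold p1 q2 p2 q1 c0; ring

theorem i1 : p2 x * q0 x - p0 x * q2 x = sin x * c1 x := by
  unfold p2 q0 p0 q2 c1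
  have := sin_sq_add_cos_sq x
  linear_combination (96 * sin x ^ 6 * (1 - 2 * sin x ^ 2)) * this

theorem i2 : p0 x * q1 x - p1 x * q0 x = sin x * c2 x := by
  unfold p0 q1 p1 q0 c2
  have := sin_sq_add_cos_sq x
  linear_combination (-24 * sin x ^ 6) * this

theorem j0 : e1 x * c2 x - e2 x * c1 x = -sin x * mm x * p0 x := by
  unfold e1 c2 e2 c1 mm p0; ring

theorem j1 : e2 x * c0 x - e0 x * c2 x = -sin x * mm x * p1 x := by
  unfold e2 c0 e0 c2 mm p1
  have := sin_sq_add_cos_sq x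
  linear_combination (-4 * (3 - 8 * sin x ^ 2 + 8 * sin x ^ 4) *
    (-90 * sin x ^ 2 + 360 * sin x ^ 4 - 336 * sin x ^ 6)) * this

theorem j2 : e0 x * c1 x - e1 x * c0 x = -sin x * mm x * p2 x := by
  unfold e0 c1 e1 c0 mm p2
  have := sin_sq_add_cos_sq x
  linear_combination (4 * (3 - 8 * sin x ^ 2 + 8 * sin x ^ 4) *
    (90 * sin x ^ 2 - 900 * sin x ^ 4 + 1680 * sin x ^ 6 - 864 * sin x ^ 8)) * this

theorem cp : c0 x * p0 x + c1 x * p1 x + c2 x * p2 x = 0 := by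
  unfold c0 p0 c1 p1 c2 p2
  have := sin_sq_add_cos_sq x
  linear_combination (-24 * sin x ^ 5 * (3 - 8 * sin x ^ 2 + 8 * sin x ^ 4)) * this

theorem key0 : e0 x * (c0 x ^ 2 + c1 x ^ 2 + c2 x ^ 2) -
    c0 x * (c0 x * e0 x + c1 x * e1 x + c2 x * e2 x) +
    mm x * (q0 x * (p0 x ^ 2 + p1 x ^ 2 + p2 x ^ 2) -
      p0 x * (p0 x * q0 x + p1 x * q1 x + p2 x * q2 x)) = 0 := by
  linear_combination c1 x * j2 x - c2 x * j1 x + mm x * (p2 x * i1 x - p1 x * i2 x)

theorem key1 : e1 x * (c0 x ^ 2 + c1 x ^ 2 + c2 x ^ 2) -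
    c1 x * (c0 x * e0 x + c1 x * e1 x + c2 x * e2 x) +
    mm x * (q1 x * (p0 x ^ 2 + p1 x ^ 2 + p2 x ^ 2) -
      p1 x * (p0 x * q0 x + p1 x * q1 x + p2 x * q2 x)) = 0 := by
  linear_combination c2 x * j0 x - c0 x * j2 x + mm x * (p0 x * i2 x - p2 x * i0 x)

theorem key2 : e2 x * (c0 x ^ 2 + c1 x ^ 2 + c2 x ^ 2) -
    c2 x * (c0 x * e0 x + c1 x * e1 x + c2 x * e2 x) +
    mm x * (q2 x * (p0 x ^ 2 + p1 x ^ 2 + p2 x ^ 2) -
      p2 x * (p0 x * q0 x + p1 x * q1 x + p2 x * q2 x)) = 0 := by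
  linear_combination c0 x * j1 x - c1 x * j0 x + mm x * (p1 x * i0 x - p0 x * i1 x)

theorem pp_pos : 0 < p0 x ^ 2 + p1 x ^ 2 + p2 x ^ 2 := by
  have h : p2 x = 2 * p1 x ^ 2 - 1 := by unfold p2 p1; ring
  rw [h]
  nlinarith [sq_nonneg (p0 x), sq_nonneg (8 * p1 x ^ 2 - 3)]

theorem cc_pos : 0 < c0 x ^ 2 + c1 x ^ 2 + c2 x ^ 2 := by
  have hz0 : 0 ≤ sin x ^ 2 := sq_nonneg _
  have hz1 : sin x ^ 2 ≤ 1 := sin_sq_le_one x
  have hK : cos x ^ 2 = 1 - sin x ^ 2 := by rw [cos_sq']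
  have h0 : c0 x ^ 2 = 16 * (1 - sin x ^ 2) * (3 - 8 * sin x ^ 2 + 8 * sin x ^ 4) ^ 2 := by
    unfold c0; rw [← hK]; ring
  have h2 : c2 x ^ 2 = 36 * (sin x ^ 2) ^ 3 * (5 - 12 * sin x ^ 2 + 8 * sin x ^ 4) ^ 2 := by
    unfold c2; ring
  have a1 : 1 ≤ 3 - 8 * sin x ^ 2 + 8 * sin x ^ 4 := by nlinarith [sq_nonneg (2 * sin x ^ 2 - 1)]
  have a2 : 1 / 2 ≤ 5 - 12 * sin x ^ 2 + 8 * sin x ^ 4 := by
    nlinarith [sq_nonneg (4 * sin x ^ 2 - 3)]
  have b1 : 1 ≤ (3 - 8 * sin x ^ 2 + 8 * sin x ^ 4) ^ 2 := by nlinarith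
  have b2 : 1 / 4 ≤ (5 - 12 * sin x ^ 2 + 8 * sin x ^ 4) ^ 2 := by nlinarith
  have g0 : 16 * (1 - sin x ^ 2) ≤ c0 x ^ 2 := by
    rw [h0]
    have : 0 ≤ 16 * (1 - sin x ^ 2) := by linarith
    nlinarith
  have g2 : 9 * (sin x ^ 2) ^ 3 ≤ c2 x ^ 2 := by
    rw [h2]
    have : 0 ≤ 36 * (sin x ^ 2) ^ 3 := by positivity
    nlinarith
  have g1 := sq_nonneg (c1 x)
  have hfin : 0 < 16 * (1 - sin x ^ 2) + 9 * (sin x ^ 2) ^ 3 := by
    rcases eq_or_lt_of_le hz1 with h | h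
    · rw [h]; norm_num
    · have : 0 ≤ 9 * (sin x ^ 2) ^ 3 := by positivity
      linarith
  linarith

theorem rh_pos : 0 < rh x := Real.sqrt_pos.2 (pp_pos x)

theorem gg_pos : 0 < gg x := Real.sqrt_pos.2 (cc_pos x)

theorem rh_sq : rh x ^ 2 = p0 x ^ 2 + p1 x ^ 2 + p2 x ^ 2 := Real.sq_sqrt (pp_pos x).le

theorem gg_sq : gg x ^ 2 = c0 x ^ 2 + c1 x ^ 2 + c2 x ^ 2 := Real.sq_sqrt (cc_pos x).le

theorem hrh : HasDerivAt rh ((p0 x * q0 x + p1 x * q1 x + p2 x * q2 x) / rh x) x := by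
  have h := (((hp0 x).pow 2).add ((hp1 x).pow 2)).add ((hp2 x).pow 2)
  have h2 := h.sqrt (pp_pos x).ne'
  refine h2.congr_deriv ?_
  have e : √((fun x => p0 x ^ 2 + p1 x ^ 2 + p2 x ^ 2) x) = rh x := rfl
  have h3 := (rh_pos x).ne'
  show (_ / (2 * rh x) : ℝ) = _
  push_cast
  field_simp

theorem hgg : HasDerivAt gg ((c0 x * e0 x + c1 x * e1 x + c2 x * e2 x) / gg x) x := by
  have h := (((hc0 x).pow 2).add ((hc1 x).pow 2)).add ((hc2 x).pow 2)
  have h2 := h.sqrt (cc_pos x).ne'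
  refine h2.congr_deriv ?_
  have h3 := (gg_pos x).ne'
  show (_ / (2 * gg x) : ℝ) = _
  push_cast
  field_simp

end

/-! ## Smoothness -/

theorem sp0 : ContDiff ℝ ∞ p0 := by unfold p0; fun_prop
theorem sp1 : ContDiff ℝ ∞ p1 := by unfold p1; fun_prop
theorem sp2 : ContDiff ℝ ∞ p2 := by unfold p2; fun_prop
theorem sc0 : ContDiff ℝ ∞ c0 := by unfold c0; fun_prop
theorem sc1 : ContDiff ℝ ∞ c1 := by unfold c1; fun_prop
theorem sc2 : ContDiff ℝ ∞ c2 := by unfold c2; fun_prop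
theorem sr0 : ContDiff ℝ ∞ r0 := by unfold r0; fun_prop
theorem sr1 : ContDiff ℝ ∞ r1 := by unfold r1; fun_prop
theorem sr2 : ContDiff ℝ ∞ r2 := by unfold r2; fun_prop
theorem smm : ContDiff ℝ ∞ mm := by unfold mm; fun_prop

theorem srh : ContDiff ℝ ∞ rh := by
  unfold rh
  exact (((sp0.pow 2).add (sp1.pow 2)).add (sp2.pow 2)).sqrt fun x => (pp_pos x).ne'

theorem sgg : ContDiff ℝ ∞ gg := by
  unfold gg
  exact (((sc0.pow 2).add (sc1.pow 2)).add (sc2.pow 2)).sqrt fun x => (cc_pos x).ne'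

theorem shh : ContDiff ℝ ∞ hh := by
  unfold hh
  exact ((srh.pow 3).mul smm).div (sgg.pow 3) fun x => pow_ne_zero _ (gg_pos x).ne'

theorem sd0 : ContDiff ℝ ∞ d0 := by
  unfold d0
  exact (sc0.div sgg fun x => (gg_pos x).ne').add
    ((((srh.pow 2).mul smm).mul sp0).div (sgg.pow 3) fun x => pow_ne_zero _ (gg_pos x).ne')

theorem sd1 : ContDiff ℝ ∞ d1 := by
  unfold d1
  exact (sc1.div sgg fun x => (gg_pos x).ne').add
    ((((srh.pow 2).mul smm).mul sp1).div (sgg.pow 3) fun x => pow_ne_zero _ (gg_pos x).ne')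

theorem sd2 : ContDiff ℝ ∞ d2 := by
  unfold d2
  exact (sc2.div sgg fun x => (gg_pos x).ne').add
    ((((srh.pow 2).mul smm).mul sp2).div (sgg.pow 3) fun x => pow_ne_zero _ (gg_pos x).ne')

/-! ## The derivative of the ruling -/

theorem hd_aux {c p e q d : ℝ → ℝ} (hd : ∀ x, d x = c x / gg x + rh x ^ 2 * mm x * p x / gg x ^ 3)
    (hc : ∀ x, HasDerivAt c (e x) x) (hp : ∀ x, HasDerivAt p (q x) x)
    (key : ∀ x, e x * (c0 x ^ 2 + c1 x ^ 2 + c2 x ^ 2) -
      c x * (c0 x * e0 x + c1 x * e1 x + c2 x * e2 x) +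
      mm x * (q x * (p0 x ^ 2 + p1 x ^ 2 + p2 x ^ 2) -
      p x * (p0 x * q0 x + p1 x * q1 x + p2 x * q2 x)) = 0) (x : ℝ) :
    HasDerivAt d (deriv hh x * (p x / rh x)) x := by
  have hh1 : HasDerivAt hh (deriv hh x) x :=
    (shh.differentiable (by simp)).differentiableAt.hasDerivAt
  have hde : d = fun x => c x / gg x + hh x * (p x / rh x) := by
    funext y
    rw [hd y]
    unfold hh
    have h1 := (gg_pos y).ne'
    have h2 := (rh_pos y).ne'
    field_simp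
  rw [hde]
  have h1 := ((hc x).div (hgg x) (gg_pos x).ne').add
    (hh1.mul ((hp x).div (hrh x) (rh_pos x).ne'))
  refine h1.congr_deriv ?_
  have g := (gg_pos x).ne'
  have r := (rh_pos x).ne'
  have k := key x
  rw [← gg_sq x, ← rh_sq x] at k
  have k2 : (e x * gg x - c x * ((c0 x * e0 x + c1 x * e1 x + c2 x * e2 x) / gg x)) / gg x ^ 2 +
      hh x * ((q x * rh x - p x * ((p0 x * q0 x + p1 x * q1 x + p2 x * q2 x) / rh x)) /
        rh x ^ 2) = 0 := by
    have : (e x * gg x - c x * ((c0 x * e0 x + c1 x * e1 x + c2 x * e2 x) / gg x)) / gg x ^ 2 +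
      hh x * ((q x * rh x - p x * ((p0 x * q0 x + p1 x * q1 x + p2 x * q2 x) / rh x)) /
        rh x ^ 2) = (e x * gg x ^ 2 - c x * (c0 x * e0 x + c1 x * e1 x + c2 x * e2 x) +
      mm x * (q x * rh x ^ 2 - p x * (p0 x * q0 x + p1 x * q1 x + p2 x * q2 x))) / gg x ^ 3 := by
      unfold hh
      field_simp
    rw [this, k, zero_div]
  show _ + (deriv hh x * (p x / rh x) + _) = _
  linear_combination k2

theorem hd0 (x : ℝ) : HasDerivAt d0 (deriv hh x * (p0 x / rh x)) x :=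
  hd_aux (fun _ => rfl) hc0 hp0 key0 x

theorem hd1 (x : ℝ) : HasDerivAt d1 (deriv hh x * (p1 x / rh x)) x :=
  hd_aux (fun _ => rfl) hc1 hp1 key1 x

theorem hd2 (x : ℝ) : HasDerivAt d2 (deriv hh x * (p2 x / rh x)) x :=
  hd_aux (fun _ => rfl) hc2 hp2 key2 x

/-- derivatives of maps into Euclidean space -/
theorem hasDerivAt_E {n : ℕ} {f : ℝ → EuclideanSpace ℝ (Fin n)} {f' : EuclideanSpace ℝ (Fin n)}
    {x : ℝ} (h : ∀ i, HasDerivAt (fun y => f y i) (f' i) x) : HasDerivAt f f' x := by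
  have h1 : HasDerivAt (fun y => fun i => f y i) (fun i => f' i) x := hasDerivAt_pi.2 h
  exact ((PiLp.continuousLinearEquiv 2 ℝ (fun _ : Fin n => ℝ)).symm :
    (Fin n → ℝ) →L[ℝ] EuclideanSpace ℝ (Fin n)).hasFDerivAt.comp_hasDerivAt x h1

/-- the derivative of the curve -/
def pp (x : ℝ) : E3 := WithLp.toLp 2 ![p0 x, p1 x, p2 x]

theorem hrr (x : ℝ) : HasDerivAt rr (pp x) x := by
  apply hasDerivAt_E
  intro i
  fin_cases i
  · exact hr0 x
  · exact hr1 x
  · exact hr2 x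

theorem hDD (x : ℝ) : HasDerivAt DD ((deriv hh x / rh x) • pp x) x := by
  apply hasDerivAt_E
  intro i
  fin_cases i
  · refine (hd0 x).congr_deriv ?_
    show deriv hh x * (p0 x / rh x) = deriv hh x / rh x * p0 x
    ring
  · refine (hd1 x).congr_deriv ?_
    show deriv hh x * (p1 x / rh x) = deriv hh x / rh x * p1 x
    ring
  · refine (hd2 x).congr_deriv ?_
    show deriv hh x * (p2 x / rh x) = deriv hh x / rh x * p2 x
    ring

theorem sin_pi_add (x : ℝ) : sin (x + π) = -sin x := Real.sin_add_pi x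

theorem cos_pi_add (x : ℝ) : cos (x + π) = -cos x := Real.cos_add_pi x

section
variable (x : ℝ)

theorem tp0 : p0 (x + π) = p0 x := by unfold p0; rw [sin_pi_add, cos_pi_add]; ring
theorem tp1 : p1 (x + π) = p1 x := by unfold p1; rw [sin_pi_add]; ring
theorem tp2 : p2 (x + π) = p2 x := by unfold p2; rw [sin_pi_add]; ring
theorem tc0 : c0 (x + π) = -c0 x := by unfold c0; rw [sin_pi_add, cos_pi_add]; ring
theorem tc1 : c1 (x + π) = -c1 x := by unfold c1; rw [sin_pi_add]; ring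
theorem tc2 : c2 (x + π) = -c2 x := by unfold c2; rw [sin_pi_add]; ring
theorem tmm : mm (x + π) = -mm x := by unfold mm; rw [sin_pi_add]; ring
theorem tr0 : r0 (x + π) = r0 x := by unfold r0; rw [sin_pi_add]; ring
theorem tr1 : r1 (x + π) = r1 x := by unfold r1; rw [sin_pi_add, cos_pi_add]; ring
theorem tr2 : r2 (x + π) = r2 x := by unfold r2; rw [sin_pi_add, cos_pi_add]; ring
theorem trh : rh (x + π) = rh x := by unfold rh; rw [tp0, tp1, tp2]
theorem tgg : gg (x + π) = gg x := by unfold gg; rw [tc0, tc1, tc2, neg_sq, neg_sq, neg_sq]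
theorem thh : hh (x + π) = -hh x := by unfold hh; rw [trh, tmm, tgg]; ring
theorem td0 : d0 (x + π) = -d0 x := by unfold d0; rw [trh, tmm, tgg, tc0, tp0]; ring
theorem td1 : d1 (x + π) = -d1 x := by unfold d1; rw [trh, tmm, tgg, tc1, tp1]; ring
theorem td2 : d2 (x + π) = -d2 x := by unfold d2; rw [trh, tmm, tgg, tc2, tp2]; ring

theorem dd_sq : d0 x ^ 2 + d1 x ^ 2 + d2 x ^ 2 = 1 + hh x ^ 2 := by
  have g := (gg_pos x).ne'
  have r := (rh_pos x).ne'
  have h1 : d0 x ^ 2 + d1 x ^ 2 + d2 x ^ 2 = (c0 x ^ 2 + c1 x ^ 2 + c2 x ^ 2) / gg x ^ 2 +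
      2 * rh x ^ 2 * mm x * (c0 x * p0 x + c1 x * p1 x + c2 x * p2 x) / gg x ^ 4 +
      rh x ^ 4 * mm x ^ 2 * (p0 x ^ 2 + p1 x ^ 2 + p2 x ^ 2) / gg x ^ 6 := by
    unfold d0 d1 d2
    field_simp
    ring
  rw [h1, cp, ← gg_sq, ← rh_sq]
  unfold hh
  field_simp
  ring

theorem dp : d0 x * p0 x + d1 x * p1 x + d2 x * p2 x = hh x * rh x := by
  have g := (gg_pos x).ne'
  have r := (rh_pos x).ne'
  have h1 : d0 x * p0 x + d1 x * p1 x + d2 x * p2 x =
      (c0 x * p0 x + c1 x * p1 x + c2 x * p2 x) / gg x +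
      rh x ^ 2 * mm x * (p0 x ^ 2 + p1 x ^ 2 + p2 x ^ 2) / gg x ^ 3 := by
    unfold d0 d1 d2
    field_simp
    ring
  rw [h1, cp, ← rh_sq]
  unfold hh
  field_simp
  ring

end

theorem r_inj (x y : ℝ) (h0 : r0 x = r0 y) (h1 : r1 x = r1 y) : ∃ n : ℤ, y = x + n * π := by
  unfold r0 at h0
  unfold r1 at h1
  have h2 : sin x ^ 2 = sin y ^ 2 := by
    have : (sin x ^ 2) ^ 3 = (sin y ^ 2) ^ 3 := by rw [← pow_mul, ← pow_mul]; exact h0
    exact (pow_left_inj₀ (sq_nonneg _) (sq_nonneg _) (by norm_num)).1 this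
  have h3 : cos x ^ 2 = cos y ^ 2 := by rw [cos_sq', cos_sq', h2]
  have h4 : sin (y - x) = 0 ∨ sin (y - x) = 0 := by
    left
    rw [sin_sub]
    -- `sin y cos x = cos y sin x`
    have e1 : (sin y * cos x) ^ 2 = (cos y * sin x) ^ 2 := by
      rw [mul_pow, mul_pow, h3, h2]; ring
    rcases sq_eq_sq_iff_eq_or_eq_neg.1 e1 with h | h
    · linarith
    · -- `sin y cos x = - cos y sin x`
      have a : sin x * cos x * (sin x * cos x) = sin x * cos x * (sin y * cos y) := by rw [h1]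
      have b : sin x * cos x * (sin y * cos y) = -(sin x * cos y) ^ 2 := by
        calc sin x * cos x * (sin y * cos y) = (sin y * cos x) * (sin x * cos y) := by ring
          _ = -(sin x * cos y) ^ 2 := by rw [h]; ring
      have c : sin x * cos x = 0 := by nlinarith [sq_nonneg (sin x * cos x), sq_nonneg (sin x * cos y)]
      rcases mul_eq_zero.1 c with c | c
      · have : sin y = 0 := by
          have : sin y ^ 2 = 0 := by rw [← h2, c]; ring
          exact pow_eq_zero_iff (by norm_num) |>.1 this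
        rw [c, this]; ring
      · have : cos y = 0 := by
          have : cos y ^ 2 = 0 := by rw [← h3, c]; ring
          exact pow_eq_zero_iff (by norm_num) |>.1 this
        rw [c, this]; ring
  have h5 : sin (y - x) = 0 := h4.elim id id
  obtain ⟨n, hn⟩ := Real.sin_eq_zero_iff.1 h5
  exact ⟨n, by linarith⟩

/-- **the explicit curve** -/
theorem t_ALG : S_ALG where
  r_smooth := by
    rw [contDiff_euclidean]
    intro i
    fin_cases i
    · exact sr0
    · exact sr1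
    · exact sr2
  D_smooth := by
    rw [contDiff_euclidean]
    intro i
    fin_cases i
    · exact sd0
    · exact sd1
    · exact sd2
  ρ_smooth := srh
  h_smooth := shh
  ρ_pos := rh_pos
  r_per x := by
    unfold rr
    rw [tr0, tr1, tr2]
  D_per x := by
    unfold DD
    rw [td0, td1, td2]
    ext i
    fin_cases i <;> simp
  ρ_per := trh
  h_per := thh
  norm_r x := by
    rw [(hrr x).deriv, EuclideanSpace.norm_eq]
    unfold pp rh
    simp [Fin.sum_univ_three]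
  der_D x := by
    rw [(hrr x).deriv, (hDD x).deriv, smul_smul]
    congr 1
    have := (rh_pos x).ne'
    field_simp
  norm_D x := by
    rw [EuclideanSpace.norm_sq_eq, ← dd_sq]
    unfold DD
    simp [Fin.sum_univ_three]
  inner_D x := by
    rw [(hrr x).deriv, ← dp]
    unfold DD pp
    simp [PiLp.inner_apply, Fin.sum_univ_three]
    ring
  inj x y h := by
    have h0 := congrArg (fun v : E3 => v 0) h
    have h1 := congrArg (fun v : E3 => v 1) h
    exact r_inj x y h0 h1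

end Pool.Agent.Y520.AF
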