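import Pool.Agent.Y520.AF.Main
import Pool.Agent.Helper834.EC.Dim1

/-!
# The algebraic flat Moebius strip: Zariski closure, homotheties, final form
-/

set_option autoImplicit false

noncomputable section

namespace Pool.Agent.Y520.AF

open Real Filter Topology
open scoped ContDiff

/-- the common zero set of finitely many polynomials -/
def zeroSet (T : Finset (MvPolynomial (Fin 4) ℝ)) : Set (Fin 4 → ℝ) :=
  {y | ∀ P ∈ T, MvPolynomial.eval y P = 0}

theorem vanI_anti {X Y : Set (Fin 4 → ℝ)} (h : X ⊆ Y) : vanI Y ≤ vanI X :=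
  fun _ hP y hy => hP y (h hy)

theorem exists_finset (X : Set (Fin 4 → ℝ)) : ∃ T : Finset (MvPolynomial (Fin 4) ℝ),
    X ⊆ zeroSet T ∧ vanI (zeroSet T) = vanI X := by
  obtain ⟨T, hT⟩ := (isNoetherianRing_iff_ideal_fg (MvPolynomial (Fin 4) ℝ)).1 inferInstance (vanI X)
  have h1 : X ⊆ zeroSet T := by
    intro y hy P hP
    have : P ∈ vanI X := by rw [← hT]; exact Ideal.subset_span hP
    exact this y hy
  refine ⟨T, h1, le_antisymm (vanI_anti h1) ?_⟩
  intro P hP y hy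
  rw [← hT] at hP
  have h2 : Ideal.span (T : Set (MvPolynomial (Fin 4) ℝ)) ≤
      RingHom.ker (MvPolynomial.eval y : MvPolynomial (Fin 4) ℝ →+* ℝ) := by
    rw [Ideal.span_le]
    intro Q hQ
    exact hy Q hQ
  exact h2 hP

/-- the dimension of the surface -/
theorem dim_surf (hP : S_PRIME) (hU : S_TRU) (hL : S_TRL) {s₀ : ℝ} (h0 : 0 < s₀) :
    ringKrullDim (MvPolynomial (Fin 4) ℝ ⧸ vanI (Surf s₀)) = 2 := by
  have := hP s₀ h0
  have : IsDomain (MvPolynomial (Fin 4) ℝ ⧸ vanI (Surf s₀)) := Ideal.Quotient.isDomain _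
  have : Algebra.FiniteType ℝ (MvPolynomial (Fin 4) ℝ ⧸ vanI (Surf s₀)) :=
    Algebra.FiniteType.of_surjective (Ideal.Quotient.mkₐ ℝ (vanI (Surf s₀)))
      (Ideal.Quotient.mkₐ_surjective ℝ _)
  obtain ⟨n, h1, h2⟩ := Pool.Agent.Helper834.EC.exists_ringKrullDim_eq_trdeg ℝ
    (MvPolynomial (Fin 4) ℝ ⧸ vanI (Surf s₀))
  have h3 := hU s₀ h0
  rw [h2] at h3
  have h3' : n ≤ 2 := by exact_mod_cast h3
  have hi : AlgebraicIndependent ℝ (fun i : Fin 2 =>
      (Ideal.Quotient.mk (vanI (Surf s₀)) (MvPolynomial.X (Fin.castLE (by norm_num) i)) :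
        MvPolynomial (Fin 4) ℝ ⧸ vanI (Surf s₀))) := by
    rw [AlgebraicIndependent, injective_iff_map_eq_zero]
    intro P hP0
    apply hL s₀ h0 P
    intro s x hs
    set f : Fin 2 → Fin 4 := Fin.castLE (by norm_num) with hf
    have e : MvPolynomial.aeval (fun i : Fin 2 =>
        (Ideal.Quotient.mk (vanI (Surf s₀)) (MvPolynomial.X (f i)) :
          MvPolynomial (Fin 4) ℝ ⧸ vanI (Surf s₀))) P =
        Ideal.Quotient.mk (vanI (Surf s₀)) (MvPolynomial.rename f P) := by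
      have : (Ideal.Quotient.mkₐ ℝ (vanI (Surf s₀))).comp (MvPolynomial.rename f) =
          MvPolynomial.aeval (fun i : Fin 2 =>
          (Ideal.Quotient.mk (vanI (Surf s₀)) (MvPolynomial.X (f i)) :
          MvPolynomial (Fin 4) ℝ ⧸ vanI (Surf s₀))) := by
        ext i
        simp
      rw [← this]
      rfl
    rw [e, Ideal.Quotient.eq_zero_iff_mem] at hP0
    have h5 := hP0 _ ⟨s, x, hs, rfl⟩
    rw [MvPolynomial.eval_rename] at h5
    have e2 : (![ff s₀ s, r0 x + s * d0 x, r1 x + s * d1 x, r2 x + s * d2 x] ∘ f) =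
        ![ff s₀ s, r0 x + s * d0 x] := by
      funext i
      fin_cases i <;> rfl
    rw [e2] at h5
    exact h5
  have h4 := hi.cardinalMk_le_trdeg
  rw [h2] at h4
  have h4' : 2 ≤ n := by
    have : ((2 : ℕ) : Cardinal.{0}) ≤ (n : Cardinal.{0}) := by simpa using h4
    exact_mod_cast this
  rw [h1, le_antisymm h3' h4']
  rfl

/-! ## Homotheties -/

/-- the substitution `P(y) ↦ P(c y)` -/
def sc (c : ℝ) : MvPolynomial (Fin 4) ℝ →ₐ[ℝ] MvPolynomial (Fin 4) ℝ :=
  MvPolynomial.aeval fun i => c • MvPolynomial.X i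

theorem eval_sc (c : ℝ) (P : MvPolynomial (Fin 4) ℝ) (y : Fin 4 → ℝ) :
    MvPolynomial.eval y (sc c P) = MvPolynomial.eval (c • y) P := by
  have : ((MvPolynomial.aeval y : MvPolynomial (Fin 4) ℝ →ₐ[ℝ] ℝ).comp (sc c)) =
      (MvPolynomial.aeval (c • y) : MvPolynomial (Fin 4) ℝ →ₐ[ℝ] ℝ) := by
    ext i
    simp [sc]
  exact congrArg (fun f : MvPolynomial (Fin 4) ℝ →ₐ[ℝ] ℝ => f P) this

theorem sc_sc (c d : ℝ) (h : c * d = 1) (P : MvPolynomial (Fin 4) ℝ) : sc c (sc d P) = P := by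
  have : (sc c).comp (sc d) = AlgHom.id ℝ _ := by
    ext i
    simp [sc, smul_smul, mul_comm d c, h]
  exact congrArg (fun f : MvPolynomial (Fin 4) ℝ →ₐ[ℝ] MvPolynomial (Fin 4) ℝ => f P) this

/-- the substitution as a ring isomorphism -/
def scE (c : ℝ) (hc : c ≠ 0) : MvPolynomial (Fin 4) ℝ ≃+* MvPolynomial (Fin 4) ℝ where
  toFun := sc c
  invFun := sc c⁻¹
  left_inv P := sc_sc _ _ (inv_mul_cancel₀ hc) P
  right_inv P := sc_sc _ _ (mul_inv_cancel₀ hc) P
  map_mul' := map_mul _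
  map_add' := map_add _

theorem mem_vanI_smul {c : ℝ} {X : Set (Fin 4 → ℝ)} {P : MvPolynomial (Fin 4) ℝ} :
    P ∈ vanI ((fun y => c • y) '' X) ↔ sc c P ∈ vanI X := by
  constructor
  · intro h y hy
    rw [eval_sc]
    exact h _ ⟨y, hy, rfl⟩
  · rintro h _ ⟨y, hy, rfl⟩
    have := h y hy
    rwa [eval_sc] at this

theorem dim_smul {c : ℝ} (hc : c ≠ 0) (X : Set (Fin 4 → ℝ)) :
    ringKrullDim (MvPolynomial (Fin 4) ℝ ⧸ vanI ((fun y => c • y) '' X)) =
      ringKrullDim (MvPolynomial (Fin 4) ℝ ⧸ vanI X) := by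
  apply ringKrullDim_eq_of_ringEquiv
  refine Ideal.quotientEquiv _ _ (scE c hc) ?_
  ext P
  have h1 : P ∈ Ideal.map (scE c hc : MvPolynomial (Fin 4) ℝ →+* MvPolynomial (Fin 4) ℝ)
      (vanI ((fun y => c • y) '' X)) ↔ (scE c hc).symm P ∈ vanI ((fun y => c • y) '' X) := by
    constructor
    · intro h
      rw [Ideal.mem_map_iff_of_surjective
        (scE c hc : MvPolynomial (Fin 4) ℝ →+* MvPolynomial (Fin 4) ℝ) (scE c hc).surjective] at h
      obtain ⟨Q, hQ, rfl⟩ := h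
      simpa using hQ
    · intro h
      have := Ideal.mem_map_of_mem
        (scE c hc : MvPolynomial (Fin 4) ℝ →+* MvPolynomial (Fin 4) ℝ) h
      simpa using this
  rw [h1, mem_vanI_smul]
  have h2 : sc c ((scE c hc).symm P) = P := (scE c hc).apply_symm_apply P
  rw [h2]

theorem sc_degree {c : ℝ} {m : ℕ} {P : MvPolynomial (Fin 4) ℝ}
    (h : P ∈ MvPolynomial.restrictTotalDegree (Fin 4) ℝ m) :
    sc c P ∈ MvPolynomial.restrictTotalDegree (Fin 4) ℝ m := by
  rw [MvPolynomial.mem_restrictTotalDegree] at h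
  rw [MvPolynomial.as_sum P, map_sum]
  refine Submodule.sum_mem _ fun d hd => ?_
  have e : sc c (MvPolynomial.monomial d (P.coeff d)) =
      (c ^ (d.sum fun _ n => n)) • MvPolynomial.monomial d (P.coeff d) := by
    rw [sc, MvPolynomial.aeval_monomial]
    have : (d.prod fun i k => (c • (MvPolynomial.X i : MvPolynomial (Fin 4) ℝ)) ^ k) =
        (c ^ (d.sum fun _ n => n)) • d.prod fun i k => (MvPolynomial.X i) ^ k := by
      simp only [Finsupp.prod, Finsupp.sum, smul_pow]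
      rw [Finset.prod_smul, Finset.prod_pow_eq_pow_sum]
    rw [this, mul_smul_comm, MvPolynomial.monomial_eq]
    rfl
  rw [e]
  refine Submodule.smul_mem _ _ ?_
  rw [MvPolynomial.mem_restrictTotalDegree]
  refine (MvPolynomial.totalDegree_monomial_le _ _).trans ?_
  exact (MvPolynomial.le_totalDegree hd).trans h

/-- comparison of Hilbert functions -/
theorem finrank_le_of {X Z : Set (Fin 4 → ℝ)} {m : ℕ}
    (L : MvPolynomial (Fin 4) ℝ →ₗ[ℝ] MvPolynomial (Fin 4) ℝ)
    (hL : ∀ P ∈ MvPolynomial.restrictTotalDegree (Fin 4) ℝ m,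
      L P ∈ MvPolynomial.restrictTotalDegree (Fin 4) ℝ m)
    (h : ∀ P, P ∈ vanI Z ↔ L P ∈ vanI X) :
    Module.finrank ℝ (Vm Z m) ≤ Module.finrank ℝ (Vm X m) := by
  set D := MvPolynomial.restrictTotalDegree (Fin 4) ℝ m with hD
  set f : D →ₗ[ℝ] (Z → ℝ) := (restr Z).comp D.subtype with hf
  set g : D →ₗ[ℝ] (X → ℝ) := (restr X).comp (L.comp D.subtype) with hg
  have hr : ∀ (Y : Set (Fin 4 → ℝ)) (P : MvPolynomial (Fin 4) ℝ), restr Y P = 0 ↔ P ∈ vanI Y := by
    intro Y P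
    constructor
    · intro h y hy
      exact congrFun h ⟨y, hy⟩
    · intro h
      funext y
      exact h y.1 y.2
  have hk : LinearMap.ker f = LinearMap.ker g := by
    ext P
    rw [LinearMap.mem_ker, LinearMap.mem_ker]
    show restr Z P.1 = 0 ↔ restr X (L P.1) = 0
    rw [hr, hr, h]
  have h1 : Vm Z m = LinearMap.range f := by
    rw [hf, LinearMap.range_comp, Submodule.range_subtype]
    rfl
  have h2 : LinearMap.range g ≤ Vm X m := by
    rintro _ ⟨P, rfl⟩
    exact ⟨L P.1, hL P.1 P.2, rfl⟩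
  have e : LinearMap.range f ≃ₗ[ℝ] LinearMap.range g :=
    (f.quotKerEquivRange.symm.trans (Submodule.quotEquivOfEq _ _ hk)).trans g.quotKerEquivRange
  have : Module.Finite ℝ (Vm X m) := by
    unfold Vm
    infer_instance
  rw [h1, e.finrank_eq]
  exact Submodule.finrank_mono h2

/-- **final form**, for every width -/
theorem final (hI : S_INJ) (hC : S_COORD) (hP : S_PRIME) (hU : S_TRU) (hL : S_TRL)
    (hD : S_DEG) {a : ℝ} (ha : 0 < a) : ∃ F : ℝ × ℝ → E4, Emb a F ∧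
      ∃ T : Finset (MvPolynomial (Fin 4) ℝ), (∀ p, (F p).ofLp ∈ zeroSet T) ∧
        vanI (zeroSet T) = vanI (Set.range fun p => (F p).ofLp) ∧
        ringKrullDim (MvPolynomial (Fin 4) ℝ ⧸ vanI (zeroSet T)) = 2 ∧
        ∀ m : ℕ, Module.finrank ℝ (Vm (zeroSet T) m) ≤ (3 * m + 1) * (42 * m + 1) := by
  obtain ⟨b, s₀, hb, h0, F, hF, hR⟩ := exists_emb hI hC
  set c : ℝ := a / b with hc
  have hcpos : 0 < c := div_pos ha hb
  have hcb : c * b = a := div_mul_cancel₀ _ hb.ne'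
  set A : ℝ × ℝ →L[ℝ] ℝ × ℝ := c⁻¹ • ContinuousLinearMap.id ℝ (ℝ × ℝ) with hA
  have hAp : ∀ p : ℝ × ℝ, A p = (c⁻¹ * p.1, c⁻¹ * p.2) := fun p => rfl
  set G : ℝ × ℝ → E4 := fun p => c • F (A p) with hG
  have hrange : Set.range (fun p => (G p).ofLp) = (fun y => c • y) '' Surf s₀ := by
    rw [← hR]
    ext y
    constructor
    · rintro ⟨p, rfl⟩
      exact ⟨_, ⟨A p, rfl⟩, rfl⟩
    · rintro ⟨_, ⟨p, rfl⟩, rfl⟩
      refine ⟨c • p, ?_⟩
      show (c • F (A (c • p))).ofLp = c • (F p).ofLp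
      have : A (c • p) = p := by
        rw [hAp]
        refine Prod.ext ?_ ?_
        · show c⁻¹ * (c * p.1) = p.1
          field_simp
        · show c⁻¹ * (c * p.2) = p.2
          field_simp
      rw [this]
      rfl
  refine ⟨G, ⟨?_, ?_, ?_, ?_⟩, ?_⟩
  · exact (hF.smooth.comp A.contDiff).const_smul c
  · intro t v
    show c • F (A (-t, v + a)) = c • F (A (t, v))
    rw [hAp, hAp]
    have e : (c⁻¹ * (-t, v + a).1, c⁻¹ * (-t, v + a).2) = (-(c⁻¹ * t), c⁻¹ * v + b) := by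
      refine Prod.ext ?_ ?_
      · show c⁻¹ * -t = _
        ring
      · show c⁻¹ * (v + a) = _
        rw [← hcb]
        field_simp
    rw [e, hF.glide]
  · intro p q h
    have h1 : F (A p) = F (A q) := smul_right_injective E4 hcpos.ne' h
    obtain ⟨n, hn⟩ := hF.injective _ _ h1
    refine ⟨n, ?_⟩
    have h2 := congrArg Prod.fst hn
    have h3 := congrArg Prod.snd hn
    rw [hAp, hAp] at h2 h3
    simp only at h2 h3
    refine Prod.ext ?_ ?_
    · show q.1 = (-1) ^ n * p.1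
      field_simp at h2
      linarith
    · show q.2 = p.2 + n * a
      rw [← hcb]
      field_simp at h3
      linarith
  · intro p w
    have h1 : HasFDerivAt G (c • (fderiv ℝ F (A p)).comp A) p := by
      have h2 : HasFDerivAt F (fderiv ℝ F (A p)) (A p) :=
        ((hF.smooth.differentiable (by simp)) (A p)).hasFDerivAt
      exact (h2.comp p A.hasFDerivAt).const_smul c
    rw [h1.fderiv]
    have h3 : (c • (fderiv ℝ F (A p)).comp A) w = fderiv ℝ F (A p) w := by
      show c • (fderiv ℝ F (A p)) (A w) = _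
      have : A w = c⁻¹ • w := rfl
      rw [this, map_smul, smul_smul, mul_inv_cancel₀ hcpos.ne', one_smul]
    rw [h3, hF.isometric]
  · obtain ⟨T, hT1, hT2⟩ := exists_finset (Set.range fun p => (G p).ofLp)
    refine ⟨T, fun p => hT1 ⟨p, rfl⟩, hT2, ?_, fun m => ?_⟩
    · rw [hT2, hrange, dim_smul hcpos.ne', dim_surf hP hU hL h0]
    · refine le_trans ?_ (hD s₀ h0 m)
      refine finrank_le_of (sc c).toLinearMap (fun P hP => sc_degree hP) fun P => ?_
      rw [hT2, hrange, mem_vanI_smul]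
      rfl

end Pool.Agent.Y520.AF
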