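import Pool.Agent.Y520.AF.Alg
import Pool.Agent.Y520.AF.Stm2

/-!
# The algebraic flat Moebius strip: assembly
-/

set_option autoImplicit false

noncomputable section

namespace Pool.Agent.Y520.AF

open Real Filter Topology
open scoped ContDiff

/-- A `C^∞` isometric embedding of the complete standard Moebius strip of width `a`: a map of the
plane with the coordinates `(t, v)`, invariant under `(t, v) ↦ (-t, v + a)`, injective up to the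
powers of this map, whose induced metric is `dt² + dv²`. -/
structure Emb (a : ℝ) (F : ℝ × ℝ → E4) : Prop where
  smooth : ContDiff ℝ ∞ F
  glide : ∀ t v, F (-t, v + a) = F (t, v)
  injective : ∀ p q, F p = F q → ∃ n : ℤ, q = ((-1) ^ n * p.1, p.2 + n * a)
  isometric : ∀ p w : ℝ × ℝ, ‖fderiv ℝ F p w‖ ^ 2 = w.1 ^ 2 + w.2 ^ 2

section
variable {s₀ a : ℝ} {σ ξ : ℝ × ℝ → ℝ}

/-- the embedding -/
def FF (s₀ : ℝ) (σ ξ : ℝ × ℝ → ℝ) (p : ℝ × ℝ) : E4 :=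
  WithLp.toLp 2 ![ff s₀ (σ p), r0 (ξ p) + σ p * d0 (ξ p), r1 (ξ p) + σ p * d1 (ξ p),
    r2 (ξ p) + σ p * d2 (ξ p)]

theorem den_pos {s : ℝ} (h : |s| < s₀) : 0 < s₀ ^ 2 - s ^ 2 := by
  have h1 : s ^ 2 < s₀ ^ 2 := sq_lt_sq.2 (h.trans_le (le_abs_self s₀))
  linarith

theorem FF_smooth (hσ : ContDiff ℝ ∞ σ) (hξ : ContDiff ℝ ∞ ξ) (hs : ∀ p, |σ p| < s₀) :
    ContDiff ℝ ∞ (FF s₀ σ ξ) := by
  rw [contDiff_euclidean]
  intro i
  fin_cases i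
  · show ContDiff ℝ ∞ fun p => 1 / (s₀ ^ 2 - σ p ^ 2)
    exact contDiff_const.div (contDiff_const.sub (hσ.pow 2)) fun p => (den_pos (hs p)).ne'
  · exact (sr0.comp hξ).add (hσ.mul (sd0.comp hξ))
  · exact (sr1.comp hξ).add (hσ.mul (sd1.comp hξ))
  · exact (sr2.comp hξ).add (hσ.mul (sd2.comp hξ))

theorem FF_glide (hg : ∀ t v : ℝ, σ (-t, v + a) = -σ (t, v) ∧ ξ (-t, v + a) = ξ (t, v) + π)
    (t v : ℝ) : FF s₀ σ ξ (-t, v + a) = FF s₀ σ ξ (t, v) := by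
  unfold FF
  rw [(hg t v).1, (hg t v).2, tr0, tr1, tr2, td0, td1, td2]
  unfold ff
  rw [neg_sq, neg_mul_neg, neg_mul_neg, neg_mul_neg]

theorem hff {s : ℝ} (h : |s| < s₀) : HasDerivAt (ff s₀) (2 * s / (s₀ ^ 2 - s ^ 2) ^ 2) s := by
  have h1 : HasDerivAt (fun y : ℝ => s₀ ^ 2 - y ^ 2) (-(2 * s)) s := by
    have := (hasDerivAt_pow 2 s).const_sub (s₀ ^ 2)
    refine this.congr_deriv ?_
    push_cast
    ring
  have h2 := h1.inv (den_pos h).ne'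
  have e : ff s₀ = (fun y : ℝ => s₀ ^ 2 - y ^ 2)⁻¹ := by
    funext y
    unfold ff
    simp
  rw [e]
  refine h2.congr_deriv ?_
  rw [neg_neg]

theorem ww_sq (s : ℝ) : ww s₀ s ^ 2 = 1 + (2 * s / (s₀ ^ 2 - s ^ 2) ^ 2) ^ 2 :=
  Real.sq_sqrt (by positivity)

theorem comp_deriv {r p d : ℝ → ℝ} (hr : ∀ x, HasDerivAt r (p x) x)
    (hd : ∀ x, HasDerivAt d (deriv hh x * (p x / rh x)) x)
    (hσ : Differentiable ℝ σ) (hξ : Differentiable ℝ ξ) (z w : ℝ × ℝ) :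
    fderiv ℝ (fun q => r (ξ q) + σ q * d (ξ q)) z w =
      (rh (ξ z) + σ z * deriv hh (ξ z)) * fderiv ℝ ξ z w * (p (ξ z) / rh (ξ z)) +
        d (ξ z) * fderiv ℝ σ z w := by
  have h1 : HasFDerivAt (fun q => r (ξ q)) (p (ξ z) • fderiv ℝ ξ z) z :=
    (hr (ξ z)).comp_hasFDerivAt z (hξ z).hasFDerivAt
  have h2 : HasFDerivAt (fun q => d (ξ q))
      ((deriv hh (ξ z) * (p (ξ z) / rh (ξ z))) • fderiv ℝ ξ z) z :=
    (hd (ξ z)).comp_hasFDerivAt z (hξ z).hasFDerivAt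
  have h3 : HasFDerivAt (fun q => r (ξ q) + σ q * d (ξ q)) _ z :=
    h1.add ((hσ z).hasFDerivAt.mul h2)
  rw [h3.fderiv]
  simp only [ContinuousLinearMap.add_apply, ContinuousLinearMap.smul_apply, smul_eq_mul]
  have := (rh_pos (ξ z)).ne'
  field_simp
  ring

theorem FF_isometric (hσ : ContDiff ℝ ∞ σ) (hξ : ContDiff ℝ ∞ ξ) (hs : ∀ p, |σ p| < s₀)
    (h1 : ∀ p q : ℝ × ℝ, ww s₀ (σ p) * fderiv ℝ σ p q = q.1)
    (h2 : ∀ p q : ℝ × ℝ, (rh (ξ p) + σ p * deriv hh (ξ p)) * fderiv ℝ ξ p q +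
      hh (ξ p) * fderiv ℝ σ p q = q.2) (z w : ℝ × ℝ) :
    ‖fderiv ℝ (FF s₀ σ ξ) z w‖ ^ 2 = w.1 ^ 2 + w.2 ^ 2 := by
  have dσ : Differentiable ℝ σ := hσ.differentiable (by simp)
  have dξ : Differentiable ℝ ξ := hξ.differentiable (by simp)
  have dF : Differentiable ℝ (FF s₀ σ ξ) := (FF_smooth hσ hξ hs).differentiable (by simp)
  have comp : ∀ i, (fderiv ℝ (FF s₀ σ ξ) z w) i = fderiv ℝ (fun q => FF s₀ σ ξ q i) z w := by
    intro i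
    have h : HasFDerivAt (fun q => FF s₀ σ ξ q i)
        ((EuclideanSpace.proj i : E4 →L[ℝ] ℝ).comp (fderiv ℝ (FF s₀ σ ξ) z)) z :=
      (EuclideanSpace.proj i : E4 →L[ℝ] ℝ).hasFDerivAt.comp z (dF z).hasFDerivAt
    rw [h.fderiv]
    rfl
  rw [EuclideanSpace.norm_sq_eq, Fin.sum_univ_four]
  simp only [comp, Real.norm_eq_abs, sq_abs]
  have c0' : fderiv ℝ (fun q => FF s₀ σ ξ q 0) z w =
      2 * σ z / (s₀ ^ 2 - σ z ^ 2) ^ 2 * fderiv ℝ σ z w := by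
    have h : HasFDerivAt (fun q => ff s₀ (σ q)) ((2 * σ z / (s₀ ^ 2 - σ z ^ 2) ^ 2) •
      fderiv ℝ σ z) z := (hff (hs z)).comp_hasFDerivAt z (dσ z).hasFDerivAt
    exact congrArg (fun L : ℝ × ℝ →L[ℝ] ℝ => L w) h.fderiv
  have c1' : fderiv ℝ (fun q => FF s₀ σ ξ q 1) z w = _ := comp_deriv hr0 hd0 dσ dξ z w
  have c2' : fderiv ℝ (fun q => FF s₀ σ ξ q 2) z w = _ := comp_deriv hr1 hd1 dσ dξ z w
  have c3' : fderiv ℝ (fun q => FF s₀ σ ξ q 3) z w = _ := comp_deriv hr2 hd2 dσ dξ z w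
  rw [c0', c1', c2', c3', ← h1 z w, ← h2 z w]
  have e1 := ww_sq (s₀ := s₀) (σ z)
  have e2 := dd_sq (ξ z)
  have e3 := dp (ξ z)
  have e4 := rh_sq (ξ z)
  have e5 := (rh_pos (ξ z)).ne'
  set α := fderiv ℝ σ z w
  set β := (rh (ξ z) + σ z * deriv hh (ξ z)) * fderiv ℝ ξ z w
  set u := 2 * σ z / (s₀ ^ 2 - σ z ^ 2) ^ 2
  have e6 : (p0 (ξ z) / rh (ξ z)) ^ 2 + (p1 (ξ z) / rh (ξ z)) ^ 2 + (p2 (ξ z) / rh (ξ z)) ^ 2 =
      1 := by
    field_simp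
    linarith
  have e7 : d0 (ξ z) * (p0 (ξ z) / rh (ξ z)) + d1 (ξ z) * (p1 (ξ z) / rh (ξ z)) +
      d2 (ξ z) * (p2 (ξ z) / rh (ξ z)) = hh (ξ z) := by
    field_simp
    linarith
  linear_combination β ^ 2 * e6 + 2 * α * β * e7 + α ^ 2 * e2 - α ^ 2 * e1

theorem iter (hg : ∀ t v : ℝ, σ (-t, v + a) = -σ (t, v) ∧ ξ (-t, v + a) = ξ (t, v) + π) (n : ℤ)
    (t v : ℝ) : σ ((-1) ^ n * t, v + n * a) = (-1) ^ n * σ (t, v) ∧
      ξ ((-1) ^ n * t, v + n * a) = ξ (t, v) + n * π := by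
  have hm : ((-1 : ℝ)) ≠ 0 := by norm_num
  induction n with
  | zero => simp
  | succ n ih =>
    have h := hg ((-1) ^ (n : ℤ) * t) (v + (n : ℤ) * a)
    have e : ((-1 : ℝ) ^ ((n : ℤ) + 1) * t, v + (((n : ℤ) + 1 : ℤ) : ℝ) * a) =
        (-((-1) ^ (n : ℤ) * t), v + (n : ℤ) * a + a) := by
      rw [zpow_add_one₀ hm]
      push_cast
      refine Prod.ext ?_ ?_ <;> ring
    rw [e, h.1, h.2, ih.1, ih.2, zpow_add_one₀ hm]
    constructor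
    · ring
    · push_cast; ring
  | pred n ih =>
    have h := hg ((-1) ^ (-(n : ℤ) - 1) * t) (v + ((-(n : ℤ) - 1 : ℤ) : ℝ) * a)
    have e : (-((-1 : ℝ) ^ (-(n : ℤ) - 1) * t), v + ((-(n : ℤ) - 1 : ℤ) : ℝ) * a + a) =
        ((-1) ^ (-(n : ℤ)) * t, v + ((-(n : ℤ) : ℤ) : ℝ) * a) := by
      rw [zpow_sub_one₀ hm]
      push_cast
      refine Prod.ext ?_ ?_
      · show -((-1 : ℝ) ^ (-(n : ℤ)) * (-1)⁻¹ * t) = _
        norm_num
      · ring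
    rw [e, ih.1, ih.2] at h
    constructor
    · rw [zpow_sub_one₀ hm] at h ⊢
      have := h.1
      rw [show ((-1 : ℝ))⁻¹ = -1 by norm_num] at this ⊢
      linarith
    · have := h.2
      push_cast at this ⊢
      linarith

theorem FF_injective
    (hJ : ∀ s : ℝ, |s| < s₀ → ∀ x y : ℝ, rr x + s • DD x = rr y + s • DD y →
      s = 0 ∨ ∃ n : ℤ, y = x + n * (2 * π))
    (hs : ∀ p, |σ p| < s₀)
    (hi : ∀ p q, σ p = σ q → ξ p = ξ q → p = q)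
    (hg : ∀ t v : ℝ, σ (-t, v + a) = -σ (t, v) ∧ ξ (-t, v + a) = ξ (t, v) + π) (p q : ℝ × ℝ)
    (h : FF s₀ σ ξ p = FF s₀ σ ξ q) : ∃ n : ℤ, q = ((-1) ^ n * p.1, p.2 + n * a) := by
  -- the case of equal `σ`
  have key : ∀ p q, FF s₀ σ ξ p = FF s₀ σ ξ q → σ p = σ q →
      ∃ n : ℤ, q = ((-1) ^ n * p.1, p.2 + n * a) := by
    intro p q h hpq
    have e0 : r0 (ξ p) + σ p * d0 (ξ p) = r0 (ξ q) + σ q * d0 (ξ q) :=
      congrArg (fun v : E4 => v 1) h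
    have e1 : r1 (ξ p) + σ p * d1 (ξ p) = r1 (ξ q) + σ q * d1 (ξ q) :=
      congrArg (fun v : E4 => v 2) h
    have e2 : r2 (ξ p) + σ p * d2 (ξ p) = r2 (ξ q) + σ q * d2 (ξ q) :=
      congrArg (fun v : E4 => v 3) h
    have e : rr (ξ p) + σ p • DD (ξ p) = rr (ξ q) + σ p • DD (ξ q) := by
      rw [← hpq] at e0 e1 e2
      ext i
      fin_cases i
      · exact e0
      · exact e1
      · exact e2
    rcases hJ (σ p) (hs p) _ _ e with h0 | ⟨n, hn⟩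
    · rw [h0, zero_smul, zero_smul, add_zero, add_zero] at e
      obtain ⟨n, hn⟩ := t_ALG.inj _ _ e
      refine ⟨n, hi _ _ ?_ ?_⟩
      · rw [(iter hg n p.1 p.2).1, ← hpq, show σ (p.1, p.2) = σ p from rfl, h0, mul_zero]
      · rw [(iter hg n p.1 p.2).2, hn]
    · refine ⟨2 * n, hi _ _ ?_ ?_⟩
      · rw [(iter hg (2 * n) p.1 p.2).1, ← hpq, zpow_mul]
        norm_num
      · rw [(iter hg (2 * n) p.1 p.2).2, hn]
        push_cast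
        show _ = ξ p + _
        ring
  have h0 : ff s₀ (σ p) = ff s₀ (σ q) := congrArg (fun v : E4 => v 0) h
  have h1 : σ p ^ 2 = σ q ^ 2 := by
    unfold ff at h0
    have a1 := den_pos (hs p)
    have a2 := den_pos (hs q)
    rw [div_eq_div_iff a1.ne' a2.ne'] at h0
    linarith
  rcases sq_eq_sq_iff_eq_or_eq_neg.1 h1 with h2 | h2
  · exact key p q h h2
  · have h3 : FF s₀ σ ξ (-p.1, p.2 + a) = FF s₀ σ ξ q := by
      rw [FF_glide hg]; exact h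
    have h4 : σ (-p.1, p.2 + a) = σ q := by
      rw [(hg p.1 p.2).1]
      show -σ p = σ q
      linarith
    obtain ⟨n, hn⟩ := key _ _ h3 h4
    refine ⟨n + 1, ?_⟩
    rw [hn, zpow_add_one₀ (by norm_num)]
    push_cast
    refine Prod.ext ?_ ?_
    · show _ * -p.1 = _ * p.1
      ring
    · show p.2 + a + n * a = _
      ring

end

/-- the embedding for one width, with the image -/
theorem exists_emb (hI : S_INJ) (hC : S_COORD) : ∃ a s₀ : ℝ, 0 < a ∧ 0 < s₀ ∧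
    ∃ F : ℝ × ℝ → E4, Emb a F ∧ Set.range (fun p => (F p).ofLp) = Surf s₀ := by
  obtain ⟨s₁, hs₁, hJ⟩ := hI rr DD rh hh t_ALG
  obtain ⟨a, s₂, ha, hs₂, hC⟩ := hC rh hh srh shh rh_pos trh thh
  set s₀ := min s₁ s₂ with hs₀
  have h0 : 0 < s₀ := lt_min hs₁ hs₂
  obtain ⟨σ, ξ, hσ, hξ, hs, hsurj, hi, hg, h1, h2⟩ := hC s₀ h0 (min_le_right _ _)
  refine ⟨a, s₀, ha, h0, FF s₀ σ ξ, ⟨FF_smooth hσ hξ hs, FF_glide hg,
    FF_injective (fun s hs => hJ s (hs.trans_le (min_le_left _ _))) hs hi hg,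
    FF_isometric hσ hξ hs h1 h2⟩, ?_⟩
  ext y
  constructor
  · rintro ⟨p, rfl⟩
    exact ⟨σ p, ξ p, hs p, rfl⟩
  · rintro ⟨s, x, hsx, rfl⟩
    obtain ⟨p, hp1, hp2⟩ := hsurj s x hsx
    refine ⟨p, ?_⟩
    show ![ff s₀ (σ p), r0 (ξ p) + σ p * d0 (ξ p), r1 (ξ p) + σ p * d1 (ξ p),
      r2 (ξ p) + σ p * d2 (ξ p)] = _
    rw [hp1, hp2]

end Pool.Agent.Y520.AF
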