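import Mathlib

/-!
# An algebraic flat Moebius strip: definitions and statements of the steps

`rr` is a closed curve with one inflection, `DD` the (suitably normalised) direction of the ruling
of its rectifying developable, `rh` the length of `rr'`, `hh` the cotangent of the angle of the
ruling with the curve.  All functions have the parameter `x`, `S = sin x`, `K = cos x`.
-/

set_option autoImplicit false

noncomputable section

namespace Pool.Agent.Y520.AF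

open Real Filter Topology
open scoped ContDiff

/-- the space -/
abbrev E3 := EuclideanSpace ℝ (Fin 3)

/-- the four dimensional space -/
abbrev E4 := EuclideanSpace ℝ (Fin 4)

/-! ## The curve and the rulings -/

/-- the components of the curve -/
def r0 (x : ℝ) : ℝ := sin x ^ 6
def r1 (x : ℝ) : ℝ := sin x * cos x
def r2 (x : ℝ) : ℝ := sin x * cos x * (1 - 2 * sin x ^ 2)

/-- the components of the derivative of the curve -/
def p0 (x : ℝ) : ℝ := 6 * sin x ^ 5 * cos x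
def p1 (x : ℝ) : ℝ := 1 - 2 * sin x ^ 2
def p2 (x : ℝ) : ℝ := 1 - 8 * sin x ^ 2 + 8 * sin x ^ 4

/-- the binormal, up to a factor: `r' × r'' = sin x * C` -/
def c0 (x : ℝ) : ℝ := -4 * cos x * (3 - 8 * sin x ^ 2 + 8 * sin x ^ 4)
def c1 (x : ℝ) : ℝ := 6 * sin x ^ 3 * (5 - 30 * sin x ^ 2 + 40 * sin x ^ 4 - 16 * sin x ^ 6)
def c2 (x : ℝ) : ℝ := -6 * sin x ^ 3 * (5 - 12 * sin x ^ 2 + 8 * sin x ^ 4)

/-- `det (r', r'', r''') = sin x ^ 3 * m` -/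
def mm (x : ℝ) : ℝ := -24 * sin x *
  (45 - 160 * sin x ^ 2 + 240 * sin x ^ 4 - 192 * sin x ^ 6 + 64 * sin x ^ 8)

/-- the length of `r'` -/
def rh (x : ℝ) : ℝ := √(p0 x ^ 2 + p1 x ^ 2 + p2 x ^ 2)

/-- the length of `C` -/
def gg (x : ℝ) : ℝ := √(c0 x ^ 2 + c1 x ^ 2 + c2 x ^ 2)

/-- the cotangent of the angle between the ruling and the curve -/
def hh (x : ℝ) : ℝ := rh x ^ 3 * mm x / gg x ^ 3

/-- the components of the direction of the ruling -/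
def d0 (x : ℝ) : ℝ := c0 x / gg x + rh x ^ 2 * mm x * p0 x / gg x ^ 3
def d1 (x : ℝ) : ℝ := c1 x / gg x + rh x ^ 2 * mm x * p1 x / gg x ^ 3
def d2 (x : ℝ) : ℝ := c2 x / gg x + rh x ^ 2 * mm x * p2 x / gg x ^ 3

/-- the curve -/
def rr (x : ℝ) : E3 := WithLp.toLp 2 ![r0 x, r1 x, r2 x]

/-- the direction of the ruling -/
def DD (x : ℝ) : E3 := WithLp.toLp 2 ![d0 x, d1 x, d2 x]

/-- a flat Moebius strip `r x + s D x`, `s` small, in space: the length element is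
`((rho + s h') dx + h ds)² + ds²` -/
structure Dev (r D : ℝ → E3) (ρ h : ℝ → ℝ) : Prop where
  r_smooth : ContDiff ℝ ∞ r
  D_smooth : ContDiff ℝ ∞ D
  ρ_smooth : ContDiff ℝ ∞ ρ
  h_smooth : ContDiff ℝ ∞ h
  ρ_pos : ∀ x, 0 < ρ x
  r_per : ∀ x, r (x + π) = r x
  D_per : ∀ x, D (x + π) = -D x
  ρ_per : ∀ x, ρ (x + π) = ρ x
  h_per : ∀ x, h (x + π) = -h x
  norm_r : ∀ x, ‖deriv r x‖ = ρ x
  der_D : ∀ x, ρ x • deriv D x = deriv h x • deriv r x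
  norm_D : ∀ x, ‖D x‖ ^ 2 = 1 + h x ^ 2
  inner_D : ∀ x, inner ℝ (D x) (deriv r x) = h x * ρ x
  inj : ∀ x y, r x = r y → ∃ n : ℤ, y = x + n * π

/-- **ALG**: the explicit curve -/
def S_ALG : Prop := Dev rr DD rh hh

/-- **INJ**: no self-intersections near the core -/
def S_INJ : Prop := ∀ (r D : ℝ → E3) (ρ h : ℝ → ℝ), Dev r D ρ h →
  ∃ s₁ : ℝ, 0 < s₁ ∧ ∀ s : ℝ, |s| < s₁ → ∀ x y : ℝ, r x + s • D x = r y + s • D y →
    s = 0 ∨ ∃ n : ℤ, y = x + n * (2 * π)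

/-- the fourth coordinate `f` and the factor `√(1 + f'²)` -/
def ff (s₀ s : ℝ) : ℝ := 1 / (s₀ ^ 2 - s ^ 2)
def ww (s₀ s : ℝ) : ℝ := √(1 + (2 * s / (s₀ ^ 2 - s ^ 2) ^ 2) ^ 2)

/-- **COORD**: the coordinates `t`, `v` with `dt = √(1 + f'²) ds`, `dv = (rho + s h') dx + h ds` map
the strip `|s| < s₀` onto the plane; `σ`, `ξ` are the inverse functions -/
def S_COORD : Prop := ∀ (ρ h : ℝ → ℝ), ContDiff ℝ ∞ ρ → ContDiff ℝ ∞ h → (∀ x, 0 < ρ x) →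
  (∀ x, ρ (x + π) = ρ x) → (∀ x, h (x + π) = -h x) → ∃ (a s₁ : ℝ), 0 < a ∧ 0 < s₁ ∧
    ∀ s₀ : ℝ, 0 < s₀ → s₀ ≤ s₁ → ∃ σ ξ : ℝ × ℝ → ℝ, ContDiff ℝ ∞ σ ∧ ContDiff ℝ ∞ ξ ∧
      (∀ p, |σ p| < s₀) ∧
      (∀ s x : ℝ, |s| < s₀ → ∃ p, σ p = s ∧ ξ p = x) ∧
      (∀ p q, σ p = σ q → ξ p = ξ q → p = q) ∧
      (∀ t v : ℝ, σ (-t, v + a) = -σ (t, v) ∧ ξ (-t, v + a) = ξ (t, v) + π) ∧
      (∀ p q : ℝ × ℝ, ww s₀ (σ p) * fderiv ℝ σ p q = q.1) ∧
      ∀ p q : ℝ × ℝ, (ρ (ξ p) + σ p * deriv h (ξ p)) * fderiv ℝ ξ p q + h (ξ p) * fderiv ℝ σ p q =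
        q.2

/-- the surface in four dimensional space -/
def Surf (s₀ : ℝ) : Set (Fin 4 → ℝ) := {y | ∃ s x : ℝ, |s| < s₀ ∧
  y = ![ff s₀ s, r0 x + s * d0 x, r1 x + s * d1 x, r2 x + s * d2 x]}

/-- the ideal of the polynomials which vanish on a set -/
def vanI (X : Set (Fin 4 → ℝ)) : Ideal (MvPolynomial (Fin 4) ℝ) where
  carrier := {P | ∀ y ∈ X, MvPolynomial.eval y P = 0}
  add_mem' := fun ha hb y hy => by rw [map_add, ha y hy, hb y hy, add_zero]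
  zero_mem' := fun y _ => map_zero _
  smul_mem' := fun c P hP y hy => by rw [smul_eq_mul, map_mul, hP y hy, mul_zero]

/-- the strip of the parameters -/
def UU (s₀ : ℝ) : Set (ℝ × ℝ) := {p | |p.1| < s₀}

/-- **OO**: analytic functions on the strip have no zero divisors -/
def S_OO : Prop := ∀ s₀ : ℝ, 0 < s₀ → ∀ f g : ℝ × ℝ → ℝ, AnalyticOnNhd ℝ f (UU s₀) →
  AnalyticOnNhd ℝ g (UU s₀) → (∀ p ∈ UU s₀, f p * g p = 0) →
    (∀ p ∈ UU s₀, f p = 0) ∨ ∀ p ∈ UU s₀, g p = 0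

/-- **ANA**: `gg` is positive and analytic -/
def S_ANA : Prop := (∀ x, 0 < gg x) ∧ AnalyticOnNhd ℝ gg Set.univ

/-- **PRIME**: the ideal of the surface is prime -/
def S_PRIME : Prop := ∀ s₀ : ℝ, 0 < s₀ → (vanI (Surf s₀)).IsPrime

/-- **TRU**: the transcendence degree is at most two -/
def S_TRU : Prop := ∀ s₀ : ℝ, 0 < s₀ →
  Algebra.trdeg ℝ (MvPolynomial (Fin 4) ℝ ⧸ vanI (Surf s₀)) ≤ 2

/-- **TRL**: the first two coordinates are algebraically independent -/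
def S_TRL : Prop := ∀ s₀ : ℝ, 0 < s₀ → ∀ P : MvPolynomial (Fin 2) ℝ,
  (∀ s x : ℝ, |s| < s₀ → MvPolynomial.eval ![ff s₀ s, r0 x + s * d0 x] P = 0) → P = 0

/-- **DIM**: the Zariski closure of the surface has dimension two -/
def S_DIM : Prop := ∀ s₀ : ℝ, 0 < s₀ → ringKrullDim (MvPolynomial (Fin 4) ℝ ⧸ vanI (Surf s₀)) = 2

end Pool.Agent.Y520.AF
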